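import Pool.Agent.W2helper26.MC.Stm

/-!
# Project MC, piece PATH: accepting computations of an oracle algorithm as terms
-/

set_option autoImplicit false

namespace Pool.Agent.W2helper17.MC

open Finset Pool.Agent.NPC Pool.Agent.H620R2.Gauge Pool.Agent.W2helper26.MC

theorem forall_lits {M : Alg} {A : Oracle} {x π : List Bool} :
    (∀ l ∈ lits M x π, A l.1 = l.2) ↔
      ∀ j < π.length, A (M.D (pairBits x (π.take j))).tail = π.getD j false := by
  constructor
  · intro h j hj
    exact h ((M.D (pairBits x (π.take j))).tail, π.getD j false)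
      (mem_image.2 ⟨j, mem_range.2 hj, rfl⟩)
  · intro h l hl
    obtain ⟨j, hj, rfl⟩ := mem_image.1 hl
    exact h j (mem_range.1 hj)

theorem sound {M : Alg} {A : Oracle} {x : List Bool} : ∀ (n : ℕ) (a : List Bool),
    M.run A x n a = some [true] → ∃ ρ : List Bool, (a ++ ρ).length < a.length + n ∧
      M.D (pairBits x (a ++ ρ)) = [true, true] ∧
      ∀ j, a.length ≤ j → j < (a ++ ρ).length →
        (M.D (pairBits x ((a ++ ρ).take j))).head? = some false ∧
        A (M.D (pairBits x ((a ++ ρ).take j))).tail = (a ++ ρ).getD j false := by
  intro n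
  induction n with
  | zero =>
    intro a h
    simp [Alg.run] at h
  | succ n ih =>
    intro a h
    rw [Alg.run] at h
    split at h
    · simp at h
    · rename_i z hz
      simp only [Option.some.injEq] at h
      subst h
      refine ⟨[], ?_, ?_, ?_⟩
      · simp
      · simpa using hz
      · intro j h1 h2
        simp at h2
        omega
    · rename_i q hq
      obtain ⟨ρ, h1, h2, h3⟩ := ih _ h
      refine ⟨A q :: ρ, ?_, ?_, ?_⟩
      · simp only [List.length_append, List.length_cons, List.length_nil] at h1 ⊢
        omega
      · simpa using h2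
      · intro j hj1 hj2
        have e : a ++ A q :: ρ = a ++ [A q] ++ ρ := by simp
        rcases hj1.eq_or_lt with hj | hj
        · subst hj
          rw [List.take_left, hq]
          refine ⟨rfl, ?_⟩
          simp
        · rw [e] at hj2 ⊢
          refine h3 j ?_ hj2
          simp only [List.length_append, List.length_cons, List.length_nil]
          omega

theorem complete {M : Alg} {A : Oracle} {x π : List Bool}
    (h1 : M.D (pairBits x π) = [true, true])
    (h2 : ∀ j < π.length, (M.D (pairBits x (π.take j))).head? = some false)
    (h3 : ∀ j < π.length, A (M.D (pairBits x (π.take j))).tail = π.getD j false) :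
    ∀ (n i : ℕ), i ≤ π.length → π.length < i + n → M.run A x n (π.take i) = some [true] := by
  intro n
  induction n with
  | zero =>
    intro i hi hn
    omega
  | succ n ih =>
    intro i hi hn
    rcases hi.eq_or_lt with hi' | hi'
    · rw [hi', List.take_length, Alg.run, h1]
    · have h4 := h2 i hi'
      have h5 := h3 i hi'
      rw [Alg.run]
      cases hD : M.D (pairBits x (π.take i)) with
      | nil =>
        rw [hD] at h4
        simp at h4
      | cons c q =>
        rw [hD] at h4 h5
        simp only [List.head?_cons, Option.some.injEq] at h4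
        subst h4
        simp only [List.tail_cons] at h5
        have h6 : π.take i ++ [A q] = π.take (i + 1) := by
          rw [h5, List.getD_eq_getElem _ _ hi', List.take_concat_get' _ _ hi']
        simp only
        rw [h6]
        exact ih (i + 1) hi' (by omega)

theorem take_eq {M : Alg} {A : Oracle} {x π π' : List Bool}
    (h2 : ∀ j < π.length, (M.D (pairBits x (π.take j))).head? = some false)
    (h3 : ∀ j < π.length, A (M.D (pairBits x (π.take j))).tail = π.getD j false)
    (h1' : M.D (pairBits x π') = [true, true])
    (h3' : ∀ j < π'.length, A (M.D (pairBits x (π'.take j))).tail = π'.getD j false) :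
    ∀ i ≤ π.length, i ≤ π'.length ∧ π.take i = π'.take i := by
  intro i
  induction i with
  | zero => intro _; simp
  | succ i ih =>
    intro hi
    obtain ⟨h4, h5⟩ := ih (by omega)
    have hi' : i < π.length := hi
    have h6 : i < π'.length := by
      rcases h4.eq_or_lt with h | h
      · exfalso
        have h7 := h2 i hi'
        rw [h5, h, List.take_length, h1'] at h7
        simp at h7
      · exact h
    refine ⟨h6, ?_⟩
    have h7 := h3 i hi'
    have h8 := h3' i h6
    rw [h5, h8] at h7
    rw [List.getD_eq_getElem _ _ hi', List.getD_eq_getElem _ _ h6] at h7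
    rw [← List.take_concat_get' _ _ hi', ← List.take_concat_get' _ _ h6, h5, h7]

/-- **PATH** -/
theorem p_path : P_path := by
  intro M
  refine ⟨?_, ?_, ?_⟩
  · intro A x
    constructor
    · intro h
      obtain ⟨ρ, h1, h2, h3⟩ := sound _ _ h
      rw [List.nil_append] at h1 h2 h3
      refine ⟨ρ, ⟨by simpa using h1, h2, fun j hj => (h3 j (Nat.zero_le _) hj).1⟩, ?_⟩
      rw [forall_lits]
      exact fun j hj => (h3 j (Nat.zero_le _) hj).2
    · rintro ⟨π, ⟨h1, h2, h3⟩, h4⟩
      rw [forall_lits] at h4
      have := complete h2 h3 h4 (M.p.eval x.length) 0 (Nat.zero_le _) (by omega)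
      simpa [Alg.out] using this
  · intro A x π π' hs hl hs' hl'
    rw [forall_lits] at hl hl'
    obtain ⟨-, h1, h2⟩ := hs
    obtain ⟨-, h1', h2'⟩ := hs'
    obtain ⟨h3, h4⟩ := take_eq h2 hl h1' hl' _ le_rfl
    obtain ⟨h5, h6⟩ := take_eq h2' hl' h1 hl _ le_rfl
    have h7 : π.length = π'.length := le_antisymm h3 h5
    rw [List.take_length, h7, List.take_length] at h4
    exact h4
  · obtain ⟨b, hb⟩ := CC.act_length ⟨M.D, M.poly, M.D, M.poly⟩ M.p
    refine ⟨M.p + b, fun x π hs => ?_⟩
    obtain ⟨h1, -, -⟩ := hs
    rw [Polynomial.eval_add]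
    refine ⟨by omega, fun l hl => ?_⟩
    obtain ⟨j, hj, rfl⟩ := mem_image.1 hl
    have h2 := hb x (π.take j) (by
      rw [List.length_take]
      omega)
    simp only [List.length_tail]
    simp only at h2
    omega

end Pool.Agent.W2helper17.MC
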